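import Pool.Agent.H98.RFT.Targets3
import Pool.Agent.H39.RFC.PM
import Pool.Agent.H19.RFC.QUE

/-!
# Board `rft_modules`: basic rules (rows BAS and QPR)
-/

set_option autoImplicit false

noncomputable section

open MeasureTheory ProbabilityTheory Filter Topology

namespace Pool.Agent.H98.RFT

open Pool.Agent.H98.RFC Pool.Agent.H98.RFZ

theorem ind_pos {p : Prop} (h : p) : ind p = 1 := if_pos h

theorem ind_neg {p : Prop} (h : ¬ p) : ind p = 0 := if_neg h

theorem ind_nonneg (p : Prop) : 0 ≤ ind p := by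
  unfold ind; split_ifs <;> norm_num

theorem ind_le_one (p : Prop) : ind p ≤ 1 := by
  unfold ind; split_ifs <;> norm_num

theorem ind_mono {p q : Prop} (h : p → q) : ind p ≤ ind q := by
  by_cases hp : p
  · rw [ind_pos hp, ind_pos (h hp)]
  · rw [ind_neg hp]; exact ind_nonneg q

theorem ind_not (p : Prop) : ind (¬ p) = 1 - ind p := by
  by_cases hp : p
  · rw [ind_pos hp, ind_neg (not_not.2 hp)]; norm_num
  · rw [ind_neg hp, ind_pos hp]; norm_num

theorem ind_and (p q : Prop) : ind (p ∧ q) = ind p * ind q := by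
  by_cases hp : p
  · by_cases hq : q
    · rw [ind_pos hp, ind_pos hq, ind_pos ⟨hp, hq⟩]; norm_num
    · rw [ind_neg hq, ind_neg (fun h => hq h.2)]; norm_num
  · rw [ind_neg hp, ind_neg (fun h => hp h.1)]; norm_num

theorem ind_exists_le {ι : Type} (I : Finset ι) (A : ι → Prop) :
    ind (∃ i ∈ I, A i) ≤ ∑ i ∈ I, ind (A i) := by
  by_cases h : ∃ i ∈ I, A i
  · rw [ind_pos h]
    obtain ⟨i, hi, hA⟩ := h
    calc (1 : ℝ) = ind (A i) := (ind_pos hA).symm
      _ ≤ ∑ i ∈ I, ind (A i) := Finset.single_le_sum (fun j _ => ind_nonneg (A j)) hi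
  · rw [ind_neg h]
    exact Finset.sum_nonneg (fun j _ => ind_nonneg (A j))

/-- The weights are nonnegative, zero if an open edge has coupling zero. -/
theorem bw_prs_nonneg {R : ℕ} {J : Site → ℝ} (hJ : IsCoupling R J) {T : ℝ} (hT : 0 < T)
    (P ω : Finset (Site × Site)) : 0 ≤ bw P (qe J T) ω :=
  Pool.Agent.H39.RFC.bw_nonneg (fun e => Pool.Agent.H19.RFC.qe_mem hJ hT e)

theorem bw_eq_zero {R : ℕ} {J : Site → ℝ} (hJ : IsCoupling R J) {T : ℝ}
    {P ω : Finset (Site × Site)} (h : ¬ ∀ e ∈ ω, 0 < J (e.1 - e.2)) : bw P (qe J T) ω = 0 := by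
  push Not at h
  obtain ⟨e, he, hJe⟩ := h
  have h0 : J (e.1 - e.2) = 0 := le_antisymm hJe (hJ.nonneg _)
  unfold bw
  rw [Finset.prod_eq_zero he, zero_mul]
  unfold qe
  rw [h0]; simp

theorem Zf_mul_pos (R : ℕ) (J h : Site → ℝ) (T : ℝ) (W : Finset Site) (B B' : Set Site) :
    0 < Zf R J h T W B * Zf R J h T W B' :=
  mul_pos (Pool.Agent.H19.RFC.Zf_pos R J h T W B) (Pool.Agent.H19.RFC.Zf_pos R J h T W B')

theorem Qg_const {R : ℕ} (J h : Site → ℝ) (T : ℝ) (W : Finset Site)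
    (B B' : Set Site) (c : ℝ) : Qg R J h T W B B' (fun _ _ _ => c) = c := by
  have hZ := Zf_mul_pos R J h T W B B'
  unfold Qg
  rw [div_eq_iff hZ.ne']
  have h1 : ∀ S ∈ W.powerset, ∑ S' ∈ W.powerset, ∑ ω ∈ (prs R W).powerset,
      wt R J h T W B S * wt R J h T W B' S' * bw (prs R W) (qe J T) ω * c =
      wt R J h T W B S * (Zf R J h T W B' * c) := by
    intro S _
    have h2 : ∀ S' ∈ W.powerset, ∑ ω ∈ (prs R W).powerset,
        wt R J h T W B S * wt R J h T W B' S' * bw (prs R W) (qe J T) ω * c =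
        wt R J h T W B S * (wt R J h T W B' S' * c) := by
      intro S' _
      calc _ = ∑ ω ∈ (prs R W).powerset,
          (wt R J h T W B S * (wt R J h T W B' S' * c)) * bw (prs R W) (qe J T) ω := by
            refine Finset.sum_congr rfl fun ω _ => by ring
        _ = _ := by
            rw [← Finset.mul_sum, Pool.Agent.H39.RFC.bw_sum, mul_one]
    rw [Finset.sum_congr rfl h2, ← Finset.mul_sum, ← Finset.sum_mul]
    rfl
  rw [Finset.sum_congr rfl h1, ← Finset.sum_mul]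
  have : (∑ S ∈ W.powerset, wt R J h T W B S) = Zf R J h T W B := rfl
  rw [this]; ring

theorem Qg_add {R : ℕ} (J h : Site → ℝ) (T : ℝ) (W : Finset Site) (B B' : Set Site)
    (F G : Finset Site → Finset Site → Finset (Site × Site) → ℝ) :
    Qg R J h T W B B' (fun S S' ω => F S S' ω + G S S' ω) =
      Qg R J h T W B B' F + Qg R J h T W B B' G := by
  unfold Qg
  rw [← add_div]
  congr 1
  rw [← Finset.sum_add_distrib]
  refine Finset.sum_congr rfl fun S _ => ?_
  rw [← Finset.sum_add_distrib]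
  refine Finset.sum_congr rfl fun S' _ => ?_
  rw [← Finset.sum_add_distrib]
  refine Finset.sum_congr rfl fun ω _ => ?_
  ring

theorem Qg_mul {R : ℕ} (J h : Site → ℝ) (T : ℝ) (W : Finset Site) (B B' : Set Site) (c : ℝ)
    (F : Finset Site → Finset Site → Finset (Site × Site) → ℝ) :
    Qg R J h T W B B' (fun S S' ω => c * F S S' ω) = c * Qg R J h T W B B' F := by
  unfold Qg
  rw [← mul_div_assoc]
  congr 1
  rw [Finset.mul_sum]
  refine Finset.sum_congr rfl fun S _ => ?_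
  rw [Finset.mul_sum]
  refine Finset.sum_congr rfl fun S' _ => ?_
  rw [Finset.mul_sum]
  refine Finset.sum_congr rfl fun ω _ => ?_
  ring

theorem Qg_mono {R : ℕ} {J : Site → ℝ} (hJ : IsCoupling R J) (h : Site → ℝ) {T : ℝ} (hT : 0 < T)
    (W : Finset Site) (B B' : Set Site)
    (F G : Finset Site → Finset Site → Finset (Site × Site) → ℝ)
    (hFG : ∀ S S' ω, S ⊆ W → S' ⊆ W → ω ⊆ prs R W → (∀ e ∈ ω, 0 < J (e.1 - e.2)) →
      F S S' ω ≤ G S S' ω) : Qg R J h T W B B' F ≤ Qg R J h T W B B' G := by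
  have hZ := Zf_mul_pos R J h T W B B'
  unfold Qg
  refine div_le_div_of_nonneg_right ?_ hZ.le
  refine Finset.sum_le_sum fun S hS => Finset.sum_le_sum fun S' hS' =>
    Finset.sum_le_sum fun ω hω => ?_
  rw [Finset.mem_powerset] at hS hS' hω
  by_cases hp : ∀ e ∈ ω, 0 < J (e.1 - e.2)
  · refine mul_le_mul_of_nonneg_left (hFG S S' ω hS hS' hω hp) ?_
    exact mul_nonneg (mul_nonneg (Pool.Agent.H19.RFC.wt_pos R J h T W B S).le
      (Pool.Agent.H19.RFC.wt_pos R J h T W B' S').le) (bw_prs_nonneg hJ hT _ _)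
  · rw [bw_eq_zero hJ hp]; simp

theorem Qg_sum {R : ℕ} (J h : Site → ℝ) (T : ℝ) (W : Finset Site) (B B' : Set Site)
    {ι : Type} (I : Finset ι) (F : ι → Finset Site → Finset Site → Finset (Site × Site) → ℝ) :
    Qg R J h T W B B' (fun S S' ω => ∑ i ∈ I, F i S S' ω) = ∑ i ∈ I, Qg R J h T W B B' (F i) := by
  classical
  induction I using Finset.induction_on with
  | empty =>
    simp only [Finset.sum_empty]
    exact Qg_const J h T W B B' 0
  | insert a s ha ih =>
    simp only [Finset.sum_insert ha]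
    rw [Qg_add, ih]

/-- Row BAS. -/
theorem pf_BAS : D_BAS := by
  intro R J hJ h T hT W
  exact ⟨fun c => Qg_const J h T W _ _ c, fun F G => Qg_add J h T W _ _ F G,
    fun c F => Qg_mul J h T W _ _ c F,
    fun F G hFG => Qg_mono hJ h hT W _ _ F G hFG, fun ι I F => Qg_sum J h T W _ _ I F⟩

theorem compl_subset_Dq {W S S' : Finset Site} (hS' : S' ⊆ W) : (↑W : Set Site)ᶜ ⊆ Dq W S S' := by
  intro x hx
  exact ⟨Or.inr hx, fun h => hx (hS' h)⟩

theorem QP_mono {R : ℕ} {J : Site → ℝ} (hJ : IsCoupling R J) (h : Site → ℝ) {T : ℝ} (hT : 0 < T)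
    (W : Finset Site) (A B : Set Site → Finset (Site × Site) → Prop)
    (hAB : ∀ D ω, (↑W : Set Site)ᶜ ⊆ D → ω ⊆ prs R W → (∀ e ∈ ω, 0 < J (e.1 - e.2)) →
      A D ω → B D ω) : QP R J h T W A ≤ QP R J h T W B := by
  refine Qg_mono hJ h hT W _ _ _ _ ?_
  intro S S' ω _ hS' hω hp
  exact ind_mono (hAB _ ω (compl_subset_Dq hS') hω hp)

theorem QP_true {R : ℕ} (J h : Site → ℝ) (T : ℝ) (W : Finset Site) :
    QP R J h T W (fun _ _ => True) = 1 := by
  have : (fun (S S' : Finset Site) (ω : Finset (Site × Site)) => ind True) = fun _ _ _ => 1 := by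
    funext S S' ω; exact ind_pos trivial
  unfold QP Qd Qe
  rw [this]
  exact Qg_const J h T W _ _ 1

theorem QP_nonneg {R : ℕ} {J : Site → ℝ} (hJ : IsCoupling R J) (h : Site → ℝ) {T : ℝ}
    (hT : 0 < T) (W : Finset Site) (A : Set Site → Finset (Site × Site) → Prop) :
    0 ≤ QP R J h T W A := by
  have := Qg_mono hJ h hT W (↑W)ᶜ ∅ (fun _ _ _ => 0)
    (fun S S' ω => ind (A (Dq W S S') ω)) (fun S S' ω _ _ _ _ => ind_nonneg _)
  rw [Qg_const] at this
  exact this

theorem QP_le_one {R : ℕ} {J : Site → ℝ} (hJ : IsCoupling R J) (h : Site → ℝ) {T : ℝ}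
    (hT : 0 < T) (W : Finset Site) (A : Set Site → Finset (Site × Site) → Prop) :
    QP R J h T W A ≤ 1 := by
  have := QP_mono hJ h hT W A (fun _ _ => True) (fun _ _ _ _ _ _ => trivial)
  rwa [QP_true] at this

theorem QP_not {R : ℕ} (J h : Site → ℝ) (T : ℝ) (W : Finset Site)
    (A : Set Site → Finset (Site × Site) → Prop) :
    QP R J h T W (fun D ω => ¬ A D ω) = 1 - QP R J h T W A := by
  have h1 : (fun (S S' : Finset Site) (ω : Finset (Site × Site)) => ind (¬ A (Dq W S S') ω)) =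
      fun S S' ω => (1 : ℝ) + (-1) * ind (A (Dq W S S') ω) := by
    funext S S' ω; rw [ind_not]; ring
  unfold QP Qd Qe
  rw [h1, Qg_add, Qg_const, Qg_mul]; ring

theorem QP_union {R : ℕ} {J : Site → ℝ} (hJ : IsCoupling R J) (h : Site → ℝ) {T : ℝ}
    (hT : 0 < T) (W : Finset Site) {ι : Type} (I : Finset ι)
    (A : ι → Set Site → Finset (Site × Site) → Prop) :
    QP R J h T W (fun D ω => ∃ i ∈ I, A i D ω) ≤ ∑ i ∈ I, QP R J h T W (A i) := by
  unfold QP Qd Qe
  rw [← Qg_sum]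
  exact Qg_mono hJ h hT W _ _ _ _ (fun S S' ω _ _ _ _ => ind_exists_le I _)

/-- Row QPR. -/
theorem pf_QPR : D_QP := by
  intro R J hJ h T hT W
  exact ⟨fun A => ⟨QP_nonneg hJ h hT W A, QP_le_one hJ h hT W A, QP_not J h T W A⟩,
    fun A B hAB => QP_mono hJ h hT W A B hAB, fun ι I A => QP_union hJ h hT W I A⟩

end Pool.Agent.H98.RFT
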