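import Pool.Agent.H98.RFT.Targets2

/-!
# Board `rft_modules`, part 3 (planar couplings): targets

Paper: `/team-store/RFT_PAPER.md`.
-/

set_option autoImplicit false

noncomputable section

open MeasureTheory ProbabilityTheory Filter Topology

namespace Pool.Agent.H98.RFT

open Pool.Agent.H98.RFC Pool.Agent.H98.RFZ

/-! ## Shields -/

/-- Four crossed long tubes in two directions make a shield of bounded size. -/
def R_RNG : Prop := ∀ φ : ℝ, 0 < φ → φ ≤ 1 → ∃ C₀ M₁ : ℕ, 12 ≤ C₀ ∧ ∀ n M : ℕ,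
  M₁ + 40 * n ≤ M → ∀ v₁ v₂ : Site,
  InVM M v₁ → InVM M v₂ → φ * |(gdot v₁ v₂ : ℝ)| ≤ |(fdet v₁ v₂ : ℝ)| →
  ∀ u : ℕ, 100 ≤ u → ∀ z ∈ box (n * u), ∃ y a : Fin 4 → Site, (∀ i, a i = v₁ ∨ a i = v₂) ∧
    (∀ i, ∀ x, nearSeg (y i) (y i + sm u (a i)) x (2 * u) → x ∈ eb z ((M + 100) * u)) ∧
    (∀ i, ∀ x, x ∈ eb (y i) (2 * u) ∨ x ∈ eb (y i + sm u (a i)) (2 * u) →
      x ∉ box (8 * (n * u))) ∧
    ∀ D : Finset Site,
      (∀ i, ∃ (k : ℕ) (x : ℕ → Site), (∀ j, j ≤ k → x j ∈ D ∨ x j ∉ eb z (C₀ * u)) ∧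
        (∀ j, j < k → Tri (x (j + 1) - x j)) ∧
        (∀ j, j ≤ k → nearSeg (y i) (y i + sm u (a i)) (x j) (2 * u)) ∧
        x 0 ∈ eb (y i) (2 * u) ∧ x k ∈ eb (y i + sm u (a i)) (2 * u)) →
      Shield D z u C₀

/-- Shields of connected sites are likely if the tubes are easy, also under shifts. -/
def R_SHD : Prop := ∀ (R : ℕ) (J : Site → ℝ), IsCoupling R J → IsTri J → ∀ (T ε δ s : ℝ)
  (C₀ n M K' u : ℕ) (v₁ v₂ z : Site) (V : Finset Site), 0 < T →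
  (∃ y a : Fin 4 → Site, (∀ i, a i = v₁ ∨ a i = v₂) ∧
    (∀ i, ∀ x, nearSeg (y i) (y i + sm u (a i)) x (2 * u) → x ∈ eb z ((M + 100) * u)) ∧
    (∀ i, ∀ x, x ∈ eb (y i) (2 * u) ∨ x ∈ eb (y i + sm u (a i)) (2 * u) →
      x ∉ box (8 * (n * u))) ∧
    ∀ D : Finset Site,
      (∀ i, ∃ (k : ℕ) (x : ℕ → Site), (∀ j, j ≤ k → x j ∈ D ∨ x j ∉ eb z (C₀ * u)) ∧
        (∀ j, j < k → Tri (x (j + 1) - x j)) ∧
        (∀ j, j ≤ k → nearSeg (y i) (y i + sm u (a i)) (x j) (2 * u)) ∧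
        x 0 ∈ eb (y i) (2 * u) ∧ x k ∈ eb (y i + sm u (a i)) (2 * u)) →
      Shield D z u C₀) →
  z ∈ box (n * u) → 1 ≤ u → 0 ≤ δ → 1 - δ ≤ pCT R J T ε u v₁ K' → 1 - δ ≤ pCT R J T ε u v₂ K' →
  eb z (C₀ * u) ⊆ box (8 * (n * u)) → M + 200 + 20 * n ≤ K' →
  ∫ η, (1 - QP R J (fun x => ε * shf V s η x) T (box (8 * (n * u)))
      (fun D ω => Shield (clu (box (8 * (n * u))) D ω) z u C₀)) ∂gam ≤
    4 * (Real.exp (s ^ 2 * (V.card : ℝ) / 2) * Real.sqrt δ)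

open Classical in
/-- The largest subset of `E` whose triangular neighbours are all in `D`. -/
def Fs (E : Finset Site) (D : Set Site) : Finset Site :=
  (E.powerset.filter (fun F => ∀ a ∈ F, ∀ b, b ∉ F → Tri (b - a) → b ∈ D)).biUnion id

/-- Properties of `Fs`. -/
def R_FST : Prop := ∀ (E : Finset Site) (D : Set Site),
  Fs E D ⊆ E ∧ (∀ a ∈ Fs E D, ∀ b, b ∉ Fs E D → Tri (b - a) → b ∈ D) ∧
  (∀ F : Finset Site, F ⊆ E → (∀ a ∈ F, ∀ b, b ∉ F → Tri (b - a) → b ∈ D) → F ⊆ Fs E D) ∧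
  (∀ D' : Set Site, D \ ↑(Fs E D) = D' \ ↑(Fs E D) → Fs E D' = Fs E D)

/-- Conditional law in a region whose neighbours disagree, and positive association. -/
def R_FKF : Prop := ∀ (R : ℕ) (J : Site → ℝ), IsCoupling R J → IsTri J → ∀ (h : Site → ℝ)
  (T : ℝ), 0 < T → ∀ (F Λ : Finset Site), F ⊆ Λ → ∀ x ∈ F, ∀ A : Set Site → Prop,
  (∀ D D' : Set Site, D \ ↑F = D' \ ↑F → A D → A D') →
  (∀ D : Set Site, A D → ∀ a ∈ F, ∀ b, b ∉ F → Tri (b - a) → b ∈ D) →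
  ∀ G : Set Site → Finset (Site × Site) → Prop,
  (∀ D D' ω ω', D ⊆ D' → ω ⊆ ω' → G D ω → G D' ω') →
  inf1 R J h T F x * QP R J h T Λ (fun D ω => A D ∧ G D ω) ≤
    QP R J h T Λ (fun D ω => (A D ∧ G D ω) ∧ conn D F ω x)

/-- Shielded sites keep their local influence. -/
def R_SHI : Prop := ∀ (R : ℕ) (J : Site → ℝ), IsCoupling R J → IsTri J → ∀ (h : Site → ℝ)
  (T : ℝ), 0 < T → ∀ (Λ : Finset Site) (z : Site) (u C : ℕ), 12 ≤ C → 1 ≤ u →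
  eb z (C * u) ⊆ Λ → ∀ x ∈ eb z (12 * u),
  QP R J h T Λ (fun D ω => Shield (clu Λ D ω) z u C) * inf1 R J h T (eb z (C * u)) x ≤
    inf1 R J h T Λ x

/-! ## Upper bound for the tension -/

/-- Some circle is a cheap local cut. -/
def R_RAD : Prop := ∀ (R : ℕ) (J : Site → ℝ), IsCoupling R J → 1 ≤ R → ∀ (h : Site → ℝ) (T : ℝ),
  0 < T → ∀ (u C : ℕ) (z : Site), 10 * R ≤ u → 12 ≤ C →
  ∃ r : ℕ, 5 * u ≤ r ∧ r ≤ 10 * u ∧
    ∑ a ∈ eb z r, ∑ b ∈ hull R (eb z r) \ eb z r, J (a - b) * inf1 R J h T (eb z (C * u)) a ≤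
      bz R J h T u C z

/-- Properties of the price of a local cut. -/
def R_BZ : Prop := ∀ (R : ℕ) (J : Site → ℝ), IsCoupling R J → ∀ (T ε : ℝ), 0 < T →
  ∀ (u C : ℕ) (z : Site), 12 ≤ C →
  Measurable (fun η : Site → ℝ => bz R J (fun x => ε * η x) T u C z) ∧
  (∀ η : Site → ℝ, 0 ≤ bz R J (fun x => ε * η x) T u C z) ∧
  (∀ η η' : Site → ℝ, (∀ x ∈ eb z (C * u), η x = η' x) →
    bz R J (fun x => ε * η x) T u C z = bz R J (fun x => ε * η' x) T u C z) ∧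
  (∀ c : ℝ, gam {η | c < bz R J (fun x => ε * η x) T u C z} =
    gam {η | c < bz R J (fun x => ε * η x) T u C 0}) ∧
  (∀ c : ℝ, gam {η | c ≤ bz R J (fun x => ε * η x) T u C z} =
    gam {η | c ≤ bz R J (fun x => ε * η x) T u C 0})

/-- The price is positive if some coupling is positive. -/
def R_POS : Prop := ∀ (R : ℕ) (J : Site → ℝ), IsCoupling R J → (∃ z, z ≠ 0 ∧ 0 < J z) →
  ∀ (h : Site → ℝ) (T : ℝ), 0 < T →
  (∀ (W : Finset Site), ∀ x ∈ W, 0 < inf1 R J h T W x) ∧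
  (∀ (u C : ℕ) (z : Site), 1 ≤ u → 12 ≤ C → 0 < bz R J h T u C z)

/-- The tension through a coarse cut. -/
def R_TEN : Prop := ∀ (R : ℕ) (J : Site → ℝ), IsCoupling R J → 1 ≤ R → ∀ (h : Site → ℝ) (T : ℝ),
  0 < T → ∀ (u n C : ℕ) (c : ℝ) (𝒱 : Finset Site), 10 * R + 10 ≤ u → 12 ≤ C → C + 2 ≤ n →
  0 ≤ c → box (2 * n) ⊆ 𝒱 → 𝒱 ⊆ box (4 * n) → (∀ y ∈ bdy 𝒱, bz R J h T u C (sm u y) ≤ c) →
  tenT R J h T (box (n * u)) (box (8 * (n * u))) ≤ 4 * (c * ((bdy 𝒱).card : ℝ))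

/-- Upper bound for the tension with probability at least 3/4. -/
def R_UP : Prop := ∃ C₄ : ℝ, 0 < C₄ ∧ ∀ C : ℕ, 12 ≤ C → ∃ δ₀ : ℝ, 0 < δ₀ ∧ δ₀ < 1 ∧ ∃ n₀ : ℕ,
  ∀ n : ℕ, n₀ ≤ n → ∀ (R : ℕ) (J : Site → ℝ), IsCoupling R J → 1 ≤ R →
    ∀ (T ε c : ℝ) (u : ℕ), 0 < T → 0 ≤ c →
    10 * R + 10 ≤ u → (gam {η | c < bz R J (fun x => ε * η x) T u C 0}).toReal ≤ δ₀ →
    3 / 4 ≤ (gam {η | tenT R J (fun x => ε * η x) T (box (n * u)) (box (8 * (n * u))) ≤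
      C₄ * n * c}).toReal

/-! ## Lower bound for the tension -/

/-- Lower bound for the influence in `box (n u)` under a shift. -/
def R_LOW : Prop := ∀ (R : ℕ) (J : Site → ℝ), IsCoupling R J → 1 ≤ R → IsTri J →
  0 < Jt R J → ∀ (δ₀ A : ℝ) (C : ℕ), 12 ≤ C → 0 < δ₀ → δ₀ < 1 → 0 < A →
  ∃ n₀ : ℕ, ∀ n : ℕ, n₀ ≤ n → ∀ (T ε c s : ℝ) (u : ℕ), 0 < T → 0 < c → 10 * R + 10 ≤ u →
    |s| ≤ A / (n * u) →
    δ₀ ≤ (gam {η | c ≤ bz R J (fun x => ε * η x) T u C 0}).toReal →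
    (∀ z : Site, eb z (C * u) ⊆ box (n * u) →
      ∫ η, (1 - QP R J (fun x => ε * shf (box (n * u)) s η x) T (box (8 * (n * u)))
        (fun D ω => Shield (clu (box (8 * (n * u))) D ω) z u C)) ∂gam ≤ δ₀ ^ 2 / 3200) →
    49 / 50 ≤ (gam {η | δ₀ ^ 2 / 16 * ((n : ℝ) ^ 2 / (100 * (C : ℝ) ^ 2)) *
        (c * u / (R * Jt R J)) ≤
      ∑ x ∈ box (n * u), inf1 R J (fun x => ε * shf (box (n * u)) s η x) T
        (box (8 * (n * u))) x}).toReal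

/-- Integration over the shifts: lower bound for the tension. -/
def R_INT : Prop := ∀ (R : ℕ) (J : Site → ℝ), IsCoupling R J → ∀ (T ε Y τ : ℝ)
  (V Λ : Finset Site), 0 < T → 0 < ε → 0 < τ → 0 ≤ Y → hull R V ⊆ Λ → V ⊆ Λ →
  (∀ s : ℝ, |s| ≤ τ → 49 / 50 ≤ (gam {η |
    Y ≤ ∑ x ∈ V, inf1 R J (fun x => ε * shf V s η x) T Λ x}).toReal) →
  9 / 10 ≤ (gam {η | 2 * ε * τ * Y ≤ tenT R J (fun x => ε * η x) T V Λ}).toReal

/-- Planar couplings: exponential decay at positive temperature. -/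
def R_ALL : Prop := ∀ (R : ℕ) (J : Site → ℝ), IsCoupling R J → IsTri J → ∀ T ε : ℝ, 0 < T →
  0 < ε → ExpDecay R J T ε

/-- Monotone in the domain: change of lattice. `A` is given by an integer matrix with
determinant `±1`. -/
def R_LIN : Prop := ∀ (R R' : ℕ) (J J' : Site → ℝ), IsCoupling R J → IsCoupling R' J' →
  ∀ (p q : Site), (fdet p q = 1 ∨ fdet p q = -1) →
  (∀ z : Site, J' z = J (z.1 * p.1 + z.2 * q.1, z.1 * p.2 + z.2 * q.2)) →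
  ∀ T ε : ℝ, 0 < T → ExpDecay R' J' T ε → ExpDecay R J T ε

end Pool.Agent.H98.RFT
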