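import Pool.Agent.H98.RFT.Targets
import Pool.Agent.H65.RFC.PRO

/-!
# Row APR of `rft_modules`: expectation of a product over disjoint sets of sites
-/

set_option autoImplicit false

noncomputable section

open MeasureTheory ProbabilityTheory

namespace Pool.Agent.H98.RFT

open Pool.Agent.H98.RFC Pool.Agent.H98.RFZ

/-- Row APR. -/
theorem pf_APR : D_APR := by
  intro n Y f hY hm _ hd
  exact Pool.Agent.H65.RFC.PRO.integral_prod Y hY f hm hd Finset.univ

end Pool.Agent.H98.RFT
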