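import Pool.Agent.H98.RFZ.Targets3

/-!
# The random field Ising model at positive temperature: definitions for the board `rft_modules`

Two copies with plus and minus boundary and independent open edges; `Dq` is the disagreement set
(it contains all sites outside the domain).  Paper: `/team-store/RFT_PAPER.md`.
-/

set_option autoImplicit false

noncomputable section

open MeasureTheory ProbabilityTheory

namespace Pool.Agent.H98.RFT

open Pool.Agent.H98.RFC Pool.Agent.H98.RFZ

open Classical in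
/-- Indicator. -/
def ind (p : Prop) : ℝ := if p then 1 else 0

/-- Expectation for two independent copies in `W` with boundary conditions `B` and `B'`, and
independent open edges. -/
def Qg (R : ℕ) (J h : Site → ℝ) (T : ℝ) (W : Finset Site) (B B' : Set Site)
    (F : Finset Site → Finset Site → Finset (Site × Site) → ℝ) : ℝ :=
  (∑ S ∈ W.powerset, ∑ S' ∈ W.powerset, ∑ ω ∈ (prs R W).powerset,
    wt R J h T W B S * wt R J h T W B' S' * bw (prs R W) (qe J T) ω * F S S' ω) /
    (Zf R J h T W B * Zf R J h T W B')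

/-- Plus boundary for the first copy, minus boundary for the second copy. -/
def Qe (R : ℕ) (J h : Site → ℝ) (T : ℝ) (W : Finset Site)
    (F : Finset Site → Finset Site → Finset (Site × Site) → ℝ) : ℝ :=
  Qg R J h T W (↑W)ᶜ ∅ F

/-- The disagreement set; it contains all sites outside `W`. -/
def Dq (W S S' : Finset Site) : Set Site := (↑S ∪ (↑W)ᶜ) \ ↑S'

/-- Expectation of a function of the disagreement set and of the open edges. -/
def Qd (R : ℕ) (J h : Site → ℝ) (T : ℝ) (W : Finset Site)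
    (Φ : Set Site → Finset (Site × Site) → ℝ) : ℝ :=
  Qe R J h T W (fun S S' ω => Φ (Dq W S S') ω)

/-- Probability of an event in the disagreement set and the open edges. -/
def QP (R : ℕ) (J h : Site → ℝ) (T : ℝ) (W : Finset Site)
    (A : Set Site → Finset (Site × Site) → Prop) : ℝ :=
  Qd R J h T W (fun D ω => ind (A D ω))

/-- The same probability, averaged over the Gaussian field. -/
def PA (R : ℕ) (J : Site → ℝ) (T ε : ℝ) (W : Finset Site)
    (A : Set Site → Finset (Site × Site) → Prop) : ℝ :=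
  ∫ η, QP R J (fun x => ε * η x) T W A ∂gam

/-- `x 0, …, x k` is a path of sites of `D` with steps along open edges. -/
def OPath (D : Set Site) (ω : Finset (Site × Site)) (k : ℕ) (x : ℕ → Site) : Prop :=
  (∀ i, i ≤ k → x i ∈ D) ∧ ∀ i, i < k → opn ω (x i) (x (i + 1))

/-- `V` is joined to the outside of `Λ`. -/
def Cn (V Λ : Finset Site) (D : Set Site) (ω : Finset (Site × Site)) : Prop :=
  ∃ (k : ℕ) (x : ℕ → Site), OPath D ω k x ∧ x 0 ∈ V ∧ x k ∉ Λ

/-- `a` is joined to `V`. -/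
def Cv (V : Finset Site) (a : Site) (D : Set Site) (ω : Finset (Site × Site)) : Prop :=
  ∃ (k : ℕ) (x : ℕ → Site), OPath D ω k x ∧ x 0 = a ∧ x k ∈ V

open Classical in
/-- `a` is joined to `V` by a path with at most `ℓ` sites in `M` before `a`. -/
def Lv (V M : Finset Site) (ℓ : ℕ) (a : Site) (D : Set Site) (ω : Finset (Site × Site)) : Prop :=
  ∃ (k : ℕ) (x : ℕ → Site), OPath D ω k x ∧ x 0 ∈ V ∧ x k = a ∧
    ((Finset.range k).filter (fun i => x i ∈ M)).card ≤ ℓ

/-- `V` is joined to the outside of `Λ` by a path with less than `n` sites in `M`. -/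
def Th (V Λ M : Finset Site) (n : ℕ) (D : Set Site) (ω : Finset (Site × Site)) : Prop :=
  ∃ a, a ∉ Λ ∧ ∃ ℓ, ℓ < n ∧ Lv V M ℓ a D ω

open Classical in
/-- The sites of `Λ` joined to the outside. -/
def clu (Λ : Finset Site) (D : Set Site) (ω : Finset (Site × Site)) : Finset Site :=
  Λ.filter (fun y => conn D Λ ω y)

/-- Surface tension between `V` and the complement of `Λ`. -/
def tenT (R : ℕ) (J h : Site → ℝ) (T : ℝ) (V Λ : Finset Site) : ℝ :=
  -(T * Real.log (QP R J h T (Λ \ V) (fun D ω => ¬ Cn V Λ D ω)))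

/-- Partition function in `Λ` if the sites of `V` and the sites outside `Λ` are frozen, plus
exactly on `B`. -/
def Zm (R : ℕ) (J h : Site → ℝ) (T : ℝ) (Λ V : Finset Site) (B : Set Site) : ℝ :=
  ∑ S ∈ (Λ \ V).powerset, Real.exp (-(en R J h Λ (↑S ∪ B)) / T)

/-- Influence at `0` in the rectangle, averaged. -/
def mKT (R : ℕ) (J : Site → ℝ) (T ε : ℝ) (p : Site) (K w : ℝ) : ℝ :=
  ∫ η, inf1 R J (fun x => ε * η x) T (rect p K w) 0 ∂gam

/-- Short path event: a path of less than `K w` steps, inside `|gdot| ≤ 3 K w`, from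
`|fdet| ≤ 2 w` to `|fdet| ≥ 3 w`. -/
def SPT (p : Site) (K w : ℝ) (D : Set Site) (ω : Finset (Site × Site)) : Prop :=
  ∃ (k : ℕ) (x : ℕ → Site), OPath D ω k x ∧
    (∀ i, i ≤ k → |(gdot p (x i) : ℝ)| ≤ 3 * K * w * nrm p) ∧
    |(fdet p (x 0) : ℝ)| ≤ 2 * w * nrm p ∧ 3 * w * nrm p ≤ |(fdet p (x k) : ℝ)| ∧
    (k : ℝ) < K * w

/-- Probability of the short path event in the annulus. -/
def pSP (R : ℕ) (J : Site → ℝ) (T ε : ℝ) (p : Site) (K w : ℝ) : ℝ :=
  PA R J T ε (rect p K (4 * w) \ rect p K w) (SPT p K w)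

/-- The cell around `z` at scale `v` is bad for `N`. -/
def BadT (N : Site → ℝ) (v : ℕ) (z : Site) (D : Set Site) (ω : Finset (Site × Site)) : Prop :=
  ∃ (k : ℕ) (x : ℕ → Site), OPath D ω k x ∧
    (∀ i, i ≤ k → x i ∈ eb z (8 * v)) ∧ x 0 ∈ eb z (2 * v) ∧
    (v : ℤ) ^ 2 ≤ nsq (x k - x 0) ∧ (k : ℝ) < N (x k - x 0)

/-- Probability that a cell is bad. -/
def pBT (R : ℕ) (J : Site → ℝ) (T ε : ℝ) (N : Site → ℝ) (v : ℕ) : ℝ :=
  PA R J T ε (eb 0 (10 * v)) (BadT N v 0)

/-- The tube of width `2u` from `y` to `y + u v` is crossed. -/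
def CrsT (u : ℕ) (v y : Site) (D : Set Site) (ω : Finset (Site × Site)) : Prop :=
  ∃ (k : ℕ) (x : ℕ → Site), OPath D ω k x ∧
    (∀ i, i ≤ k → nearSeg y (y + sm u v) (x i) (2 * u)) ∧
    x 0 ∈ eb y (2 * u) ∧ x k ∈ eb (y + sm u v) (2 * u)

/-- Probability that a tube is crossed in the tube enlarged to width `K' u`. -/
def pCT (R : ℕ) (J : Site → ℝ) (T ε : ℝ) (u : ℕ) (v : Site) (K' : ℕ) : ℝ :=
  PA R J T ε (tube 0 (0 + sm u v) (K' * u)) (CrsT u v 0)

/-- At scale `u` all tubes that are not almost parallel to `p` are hard to cross. -/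
def HardT (R : ℕ) (J : Site → ℝ) (T ε : ℝ) (p : Site) (φ : ℝ) (M K' : ℕ) (δ : ℝ) (u : ℕ) : Prop :=
  ∀ v : Site, InVM M v → φ * |(gdot p v : ℝ)| ≤ |(fdet p v : ℝ)| → pCT R J T ε u v K' ≤ 1 - δ

/-- Average influence in a shell, as a price of a local cut. -/
def bz (R : ℕ) (J h : Site → ℝ) (T : ℝ) (u C : ℕ) (z : Site) : ℝ :=
  R * Jt R J / u * ∑ x ∈ eb z (10 * u) \ eb z (5 * u), inf1 R J h T (eb z (C * u)) x

end Pool.Agent.H98.RFT
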