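import Pool.Agent.H98.RFT.Targets
import Pool.Agent.H30.RFC.TRA

/-!
# Row TRQ of `rft_modules`: translation of the double model
-/

set_option autoImplicit false

noncomputable section

open MeasureTheory ProbabilityTheory

namespace Pool.Agent.H98.RFT

open Pool.Agent.H98.RFC Pool.Agent.H98.RFZ Pool.Agent.H30.RFC

theorem trq_img (y : Site) (W : Finset Site) :
    W.image (fun x => y + x) = W.map (tau y).toEmbedding := by
  rw [Finset.map_eq_image]
  rfl

theorem trq_cmp (y : Site) (W : Finset Site) :
    (tau y) ⁻¹' ((↑(W.map (tau y).toEmbedding) : Set Site)ᶜ) = ((↑W : Set Site))ᶜ := by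
  ext z
  simp only [Set.mem_preimage, Set.mem_compl_iff, Finset.mem_coe, Finset.mem_map_equiv,
    Equiv.symm_apply_apply]

theorem trq_Zf (R : ℕ) (J h : Site → ℝ) (T : ℝ) (y : Site) (W : Finset Site) (B : Set Site) :
    Zf R J h T (W.map (tau y).toEmbedding) B
      = Zf R J (fun x => h (y + x)) T W ((tau y) ⁻¹' B) := by
  unfold Zf
  rw [sum_pow_map]
  exact Finset.sum_congr rfl fun S _ => wt_map R J h T y W B S

theorem trq_pow {α : Type*} (e : α ≃ α) (P : Finset α) (f : Finset α → ℝ) :
    ∑ S ∈ (P.map e.toEmbedding).powerset, f S = ∑ S ∈ P.powerset, f (S.map e.toEmbedding) := by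
  symm
  refine Finset.sum_nbij' (fun S => S.map e.toEmbedding)
    (fun S => S.map e.symm.toEmbedding) ?_ ?_ ?_ ?_ ?_
  · intro S hS
    rw [Finset.mem_powerset] at hS ⊢
    exact Finset.map_subset_map.mpr hS
  · intro S hS
    rw [Finset.mem_powerset] at hS ⊢
    intro z hz
    rw [Finset.mem_map_equiv, Equiv.symm_symm] at hz
    have := hS hz
    rw [Finset.mem_map_equiv, Equiv.symm_apply_apply] at this
    exact this
  · intro S _
    ext z
    simp only [Finset.mem_map_equiv, Equiv.symm_symm, Equiv.symm_apply_apply]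
  · intro S _
    ext z
    simp only [Finset.mem_map_equiv, Equiv.symm_symm, Equiv.apply_symm_apply]
  · intro S _
    rfl

theorem trq_bw (J : Site → ℝ) (T : ℝ) (y : Site) (P ω : Finset (Site × Site)) :
    bw (P.map ((tau y).prodCongr (tau y)).toEmbedding) (qe J T)
      (ω.map ((tau y).prodCongr (tau y)).toEmbedding) = bw P (qe J T) ω := by
  classical
  have hq : ∀ e : Site × Site, qe J T (((tau y).prodCongr (tau y)) e) = qe J T e := by
    intro e
    unfold qe
    have h1 : (((tau y).prodCongr (tau y)) e).1 - (((tau y).prodCongr (tau y)) e).2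
        = e.1 - e.2 := by
      show (y + e.1) - (y + e.2) = e.1 - e.2
      abel
    rw [h1]
  unfold bw
  rw [← Finset.map_sdiff, Finset.prod_map, Finset.prod_map]
  congr 1
  · exact Finset.prod_congr rfl fun e _ => by
      rw [Equiv.coe_toEmbedding, hq]
  · exact Finset.prod_congr rfl fun e _ => by
      rw [Equiv.coe_toEmbedding, hq]

theorem trq_Dq (y : Site) (W S S' : Finset Site) :
    Dq (W.map (tau y).toEmbedding) (S.map (tau y).toEmbedding) (S'.map (tau y).toEmbedding)
      = (fun x => y + x) '' (Dq W S S') := by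
  ext z
  obtain ⟨x, rfl⟩ := (tau y).surjective z
  have h1 : tau y x ∈ (fun x => y + x) '' (Dq W S S') ↔ x ∈ Dq W S S' := by
    constructor
    · rintro ⟨w, hw, hwx⟩
      have : w = x := (tau y).injective hwx
      rw [← this]
      exact hw
    · intro h
      exact ⟨x, h, rfl⟩
  rw [h1]
  simp only [Dq, Set.mem_diff, Set.mem_union, Set.mem_compl_iff, Finset.mem_coe,
    Finset.mem_map_equiv, Equiv.symm_apply_apply]

/-- Row TRQ. -/
theorem pf_TRQ : D_TRQ := by
  classical
  intro R J h T W y
  constructor
  · intro A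
    rw [trq_img]
    unfold QP Qd Qe Qg
    rw [trq_Zf, trq_Zf, trq_cmp, Set.preimage_empty, sum_pow_map]
    congr 1
    refine Finset.sum_congr rfl fun S _ => ?_
    rw [sum_pow_map]
    refine Finset.sum_congr rfl fun S' _ => ?_
    rw [prs_map, trq_pow]
    refine Finset.sum_congr rfl fun ω _ => ?_
    rw [wt_map, wt_map, trq_bw, trq_cmp, Set.preimage_empty]
    beta_reduce
    rw [trq_Dq]
    have h2 : ω.map ((tau y).prodCongr (tau y)).toEmbedding
        = ω.image (fun e => (y + e.1, y + e.2)) := by
      rw [Finset.map_eq_image]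
      rfl
    rw [h2]
  · intro x
    rw [trq_img]
    unfold inf1
    have h1 : y + x = tau y x := rfl
    rw [h1, mg_map, mg_map, trq_cmp, Set.preimage_empty]

end Pool.Agent.H98.RFT
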