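import Pool.Agent.H98.RFZ.Final
import Pool.Agent.H1.RFT.A2
import Pool.Agent.H1.RFT.MON1
import Pool.Agent.H12.RFT.ADC
import Pool.Agent.H12.RFT.ALL3
import Pool.Agent.H12.RFT.CUT
import Pool.Agent.H12.RFT.LIN3
import Pool.Agent.H13.RFT.B2
import Pool.Agent.H13.RFT.BM
import Pool.Agent.H13.RFT.BZ
import Pool.Agent.H14.RFT.ANN1
import Pool.Agent.H14.RFT.MAIN1
import Pool.Agent.H17.RFT.CM
import Pool.Agent.H17.RFT.INT3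
import Pool.Agent.H23.RFT.POS
import Pool.Agent.H23.RFT.RAD
import Pool.Agent.H23.RFT.SHD
import Pool.Agent.H23.RFT.SHI
import Pool.Agent.H49.RFT.AP
import Pool.Agent.H49.RFT.LB1
import Pool.Agent.H50.RFT.CNT
import Pool.Agent.H50.RFT.DOM
import Pool.Agent.H50.RFT.INF
import Pool.Agent.H61.RFT.CUT1
import Pool.Agent.H65.RFT.GPF
import Pool.Agent.H67.RFT.BASE
import Pool.Agent.H67.RFT.TLB1
import Pool.Agent.H67.RFT.TQ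
import Pool.Agent.H7.RFT.ESV
import Pool.Agent.H70.RFT.A1
import Pool.Agent.H70.RFT.B1
import Pool.Agent.H70.RFT.LOW3
import Pool.Agent.H79.RFT.STEP
import Pool.Agent.H79.RFT.UP3
import Pool.Agent.H82.RFT.RNG
import Pool.Agent.H89.RFT.SP
import Pool.Agent.H94.RFT.AA
import Pool.Agent.H94.RFT.TEN
import Pool.Agent.H95.RFT.B3
import Pool.Agent.H95.RFT.CUA
import Pool.Agent.H95.RFT.FKF
import Pool.Agent.H95.RFT.FST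
import Pool.Agent.H98.RFT.APR
import Pool.Agent.H98.RFT.Basic
import Pool.Agent.H98.RFT.INDSTR
import Pool.Agent.H98.RFT.TRQ
import Pool.Agent.H99.RFT.END1
import Pool.Agent.H99.RFT.FKG
import Pool.Agent.H99.RFT.TEN3

/-! # Assembly of the board `rft_modules` -/

set_option autoImplicit false

namespace Pool.Agent.H98.RFT

open Pool.Agent.H98.RFC Pool.Agent.H98.RFZ

theorem g_BAS : Pool.Agent.H98.RFT.D_BAS := Pool.Agent.H98.RFT.pf_BAS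

theorem g_QPR : Pool.Agent.H98.RFT.D_QP := Pool.Agent.H98.RFT.pf_QPR

theorem g_CNT : Pool.Agent.H98.RFT.D_CNT := Pool.Agent.H50.RFT.pf_CNT

theorem g_LOQ : Pool.Agent.H98.RFT.D_LOQ := Pool.Agent.H50.RFT.pf_LOQ

theorem g_TRQ : Pool.Agent.H98.RFT.D_TRQ := Pool.Agent.H98.RFT.pf_TRQ

theorem g_DOM : Pool.Agent.H98.RFT.D_DOM :=
  Pool.Agent.H50.RFT.pf_DOM a_MON Pool.Agent.H19.RFC.pf_PS Pool.Agent.H19.RFC.pf_DM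

theorem g_PRD : Pool.Agent.H98.RFT.D_PRD := Pool.Agent.H50.RFT.pf_PRD g_DOM g_BAS g_QPR

theorem g_SUBD : Pool.Agent.H98.RFT.D_SUB := Pool.Agent.H50.RFT.pf_SUBD g_DOM g_BAS

theorem g_INF : Pool.Agent.H98.RFT.D_INF := Pool.Agent.H50.RFT.pf_INF a_REP a_NN g_SUBD g_QPR

theorem g_APR : Pool.Agent.H98.RFT.D_APR := Pool.Agent.H98.RFT.pf_APR

theorem g_FKG : Pool.Agent.H98.RFT.D_FKG := Pool.Agent.H99.RFT.pf_FKG Pool.Agent.H65.RFC.pf_SUB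

theorem g_ESV : Pool.Agent.H98.RFT.D_ESV := Pool.Agent.H7.RFT.pf_ESV

theorem g_TQ : Pool.Agent.H98.RFT.D_TQ := Pool.Agent.H67.RFT.pf_TQ g_ESV

theorem g_TEN : Pool.Agent.H98.RFT.D_TEN := Pool.Agent.H94.RFT.pf_TEN g_CNT g_LOQ

theorem g_AP : Pool.Agent.H98.RFT.D_AP :=
  Pool.Agent.H49.RFT.pf_AP g_TQ g_TEN Pool.Agent.H65.RFC.pf_SUB

theorem g_EXP : Pool.Agent.H98.RFT.D_EXP := Pool.Agent.H50.RFT.pf_EXP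

theorem g_ADC : Pool.Agent.H98.RFT.D_ADC := Pool.Agent.H12.RFT.pf_ADC g_EXP

theorem g_CUT : Pool.Agent.H98.RFT.D_CUT := Pool.Agent.H12.RFT.pf_CUT g_EXP g_QPR g_BAS g_TEN

theorem g_CUA : Pool.Agent.H98.RFT.D_CUA := Pool.Agent.H95.RFT.pf_CUA g_ADC g_CUT g_TEN

theorem g_GPF : Pool.Agent.H98.RFT.D_GPF := Pool.Agent.H65.RFT.pf_GPF Pool.Agent.H98.RFZ.f_CM

theorem g_MON1 : Pool.Agent.H98.RFT.P_MONT :=
  Pool.Agent.H1.RFT.pf_MON1 g_INF g_CNT Pool.Agent.H98.RFZ.f_RCT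

theorem g_LB1 : Pool.Agent.H98.RFT.P_LBT :=
  Pool.Agent.H49.RFT.pf_LB1 g_INF g_CNT g_TRQ Pool.Agent.H30.RFC.pf_TRG Pool.Agent.H98.RFZ.f_RCT

theorem g_TLB1 : Pool.Agent.H98.RFT.P_TLBT :=
  Pool.Agent.H67.RFT.pf_TLB1 g_AP Pool.Agent.H98.RFZ.f_GA g_CNT g_TEN Pool.Agent.H98.RFZ.f_AREA
    g_LB1 g_INF g_CUT

theorem g_CUT1 : Pool.Agent.H98.RFT.P_CUTT :=
  Pool.Agent.H61.RFT.pf_CUT1 g_CUA Pool.Agent.H98.RFZ.f_RCT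

theorem g_ANN1 : Pool.Agent.H98.RFT.P_ANNT :=
  Pool.Agent.H14.RFT.pf_ANN1 g_INF g_TRQ g_CNT Pool.Agent.H30.RFC.pf_TRG Pool.Agent.H98.RFZ.f_RCT

theorem g_MAIN1 : Pool.Agent.H98.RFT.P_MAINT :=
  Pool.Agent.H14.RFT.pf_MAIN1 g_TLB1 g_CUT1 g_ANN1 Pool.Agent.H98.RFZ.f_AREA
    Pool.Agent.H98.RFZ.f_RCT g_INF g_CNT g_TEN

theorem g_END1 : Pool.Agent.H98.RFT.P_ENDT :=
  Pool.Agent.H99.RFT.pf_END1 g_MAIN1 g_MON1 Pool.Agent.H98.RFZ.f_REC pf_all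

theorem g_BM : Pool.Agent.H98.RFT.T_BM :=
  Pool.Agent.H13.RFT.pf_BM g_CNT g_TRQ g_QPR Pool.Agent.H30.RFC.pf_TRG

theorem g_CM : Pool.Agent.H98.RFT.T_CM :=
  Pool.Agent.H17.RFT.pf_CM g_CNT g_TRQ g_QPR Pool.Agent.H30.RFC.pf_TRG

theorem g_BASE : Pool.Agent.H98.RFT.T_BASE := Pool.Agent.H67.RFT.pf_BASE Pool.Agent.H98.RFZ.f_NQ

theorem g_A1 : Pool.Agent.H98.RFT.T_A1 := Pool.Agent.H70.RFT.pf_A1

theorem g_A2 : Pool.Agent.H98.RFT.T_A2 :=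
  Pool.Agent.H1.RFT.pf_A2 g_A1 g_BM g_PRD g_APR g_CNT g_LOQ g_QPR

theorem g_AA : Pool.Agent.H98.RFT.T_A := Pool.Agent.H94.RFT.pf_AA g_CNT g_A2

theorem g_B1 : Pool.Agent.H98.RFT.T_B1 := Pool.Agent.H70.RFT.pf_B1 Pool.Agent.H98.RFZ.f_NQ

theorem g_B2 : Pool.Agent.H98.RFT.T_B2 := Pool.Agent.H13.RFT.pf_B2

theorem g_B3 : Pool.Agent.H98.RFT.T_B3 :=
  Pool.Agent.H95.RFT.pf_B3 g_B1 g_B2 g_BM g_CM g_PRD g_APR g_CNT g_LOQ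

theorem g_STEP : Pool.Agent.H98.RFT.T_STEP :=
  Pool.Agent.H79.RFT.STEP.pf_STEP g_B3 Pool.Agent.H98.RFZ.f_PAR g_AA Pool.Agent.H98.RFZ.f_NQ g_BM

theorem g_IND : Pool.Agent.H98.RFT.T_IND :=
  Pool.Agent.H98.RFT.pf_IND g_STEP g_BASE Pool.Agent.H98.RFZ.f_NQ g_CNT

theorem g_SP : Pool.Agent.H98.RFT.T_SP :=
  Pool.Agent.H89.RFT.pf_SP g_BM g_PRD g_CNT Pool.Agent.H98.RFZ.f_RCT

theorem g_STR : Pool.Agent.H98.RFT.T_STR := Pool.Agent.H98.RFT.pf_STR g_IND g_SP g_END1 pf_all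

theorem g_RNG : Pool.Agent.H98.RFT.R_RNG := Pool.Agent.H82.RFT.pf_RNG

theorem g_SHD : Pool.Agent.H98.RFT.R_SHD :=
  Pool.Agent.H23.RFT.pf_SHD g_SUBD g_GPF g_CM g_CNT g_QPR

theorem g_FST : Pool.Agent.H98.RFT.R_FST := Pool.Agent.H95.RFT.pf_FST

theorem g_FKF : Pool.Agent.H98.RFT.R_FKF :=
  Pool.Agent.H95.RFT.pf_FKF g_FKG g_INF Pool.Agent.H19.RFC.pf_PS Pool.Agent.H19.RFC.pf_DM

theorem g_SHI : Pool.Agent.H98.RFT.R_SHI :=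
  Pool.Agent.H23.RFT.pf_SHI g_FST g_FKF g_INF g_BAS g_QPR

theorem g_RAD : Pool.Agent.H98.RFT.R_RAD := Pool.Agent.H23.RFT.pf_RAD g_INF

theorem g_BZ : Pool.Agent.H98.RFT.R_BZ :=
  Pool.Agent.H13.RFT.pf_BZ g_INF g_CNT g_LOQ g_TRQ Pool.Agent.H30.RFC.pf_TRG

theorem g_POS : Pool.Agent.H98.RFT.R_POS := Pool.Agent.H23.RFT.pf_POS g_INF g_BAS

theorem g_TEN3 : Pool.Agent.H98.RFT.R_TEN := Pool.Agent.H99.RFT.pf_TEN3 g_CUT g_INF g_RAD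

theorem g_UP3 : Pool.Agent.H98.RFT.R_UP :=
  Pool.Agent.H79.RFT.UP3.pf_UP3 g_TEN3 Pool.Agent.H2.RFZ.pf_QPRC g_BZ Pool.Agent.H98.RFZ.f_IND
    g_TEN

theorem g_LOW3 : Pool.Agent.H98.RFT.R_LOW :=
  Pool.Agent.H70.RFT.pf_LOW3 g_SHI g_BZ Pool.Agent.H98.RFZ.f_GL Pool.Agent.H98.RFZ.f_IND g_INF
    g_CNT

theorem g_INT3 : Pool.Agent.H98.RFT.R_INT := Pool.Agent.H17.RFT.pf_INT3 g_AP g_CNT g_TEN g_INF

theorem g_ALL3 : Pool.Agent.H98.RFT.R_ALL :=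
  Pool.Agent.H12.RFT.All3.pf_ALL3 g_STR g_RNG g_SHD g_BZ g_POS g_UP3
    Pool.Agent.H65.RFZ.QCHB.pf_QTYP g_LOW3 g_INT3 pf_all g_TEN g_INF

theorem g_LIN3 : Pool.Agent.H98.RFT.R_LIN := Pool.Agent.H12.RFT.pf_LIN3 g_INF g_CNT

end Pool.Agent.H98.RFT
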