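import Pool.Agent.H98.RFT.Final
import Pool.Agent.H98.RFZ.Inv2
import Pool.Agent.H1.RFT.VONE
import Pool.Agent.H12.RFT.VINV

/-!
# Without exponential decay `L m(L)` tends to infinity, every temperature
-/

set_option autoImplicit false

open Filter

namespace Pool.Agent.H98.RFT

open Pool.Agent.H98.RFC Pool.Agent.H98.RFZ

theorem g_VONE : V_ONE := Pool.Agent.H1.RFT.pf_VONE g_SUBD g_CM g_CNT g_INF g_QPR

theorem g_VINV : V_INV :=
  Pool.Agent.H12.RFT.pf_VINV g_STR g_VONE g_INF g_CNT g_TRQ Pool.Agent.H30.RFC.pf_TRG pf_all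

/-- Without exponential decay `L m(L)` tends to infinity. -/
theorem g_INVA (R : ℕ) (J : Site → ℝ) (hJ : IsCoupling R J) (T ε : ℝ) (hT : 0 ≤ T) (hε : 0 < ε)
    (h : ¬ ExpDecay R J T ε) :
    Tendsto (fun L : ℕ => (L : ℝ) * mag R J T ε L) atTop atTop := by
  rw [tendsto_atTop]
  intro B
  rcases hT.lt_or_eq with hT | hT
  · obtain ⟨L₀, hL⟩ := g_VINV R J hJ T ε hT hε h B
    exact eventually_atTop.2 ⟨L₀, hL⟩
  · subst hT
    obtain ⟨L₀, hL⟩ := Pool.Agent.H98.RFZ.Inv.pf_INV Pool.Agent.H98.RFZ.f_STRk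
      Pool.Agent.H98.RFZ.f_DM Pool.Agent.H98.RFZ.f_MAG Pool.Agent.H98.RFZ.f_TRA
      Pool.Agent.H98.RFZ.f_TRG R J hJ ε hε h B
    exact eventually_atTop.2 ⟨L₀, hL⟩

end Pool.Agent.H98.RFT
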