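import Pool.Agent.H98.RFT.Final

/-!
# Exponential decay for planar couplings at every temperature
-/

set_option autoImplicit false

noncomputable section

open MeasureTheory ProbabilityTheory Filter Topology

namespace Pool.Agent.H98.RFT

open Pool.Agent.H98.RFC Pool.Agent.H98.RFZ Pool.Agent.H98.RFZ.Lin

theorem g_PLT (R : ℕ) (J : Site → ℝ) (hJ : IsCoupling R J) (hP : Planar J) (T ε : ℝ)
    (hT : 0 < T) (hε : 0 < ε) : ExpDecay R J T ε := by
  obtain ⟨a, b, hdet, hsup⟩ := hP
  obtain ⟨d, hd, hd2⟩ : ∃ d : ℤ, a.1 * b.2 - a.2 * b.1 = d ∧ d * d = 1 := by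
    rcases hdet with h | h
    · exact ⟨1, h, by norm_num⟩
    · exact ⟨-1, h, by norm_num⟩
  obtain ⟨A, hA⟩ : ∃ A : Site ≃+ Site, ∀ x : Site, A x =
      (x.1 * a.1 + x.2 * b.1, x.1 * a.2 + x.2 * b.2) := ⟨au a b d hd hd2, fun x => rfl⟩
  have hTri : ∀ z, J (A z) ≠ 0 → Tri z := by
    intro z hz
    have h0 : A (0, 0) = 0 := by rw [hA]; ext <;> simp
    have h1 : A (1, 0) = a := by rw [hA]; ext <;> simp
    have h2 : A (-1, 0) = -a := by rw [hA]; ext <;> simp
    have h3 : A (0, 1) = b := by rw [hA]; ext <;> simp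
    have h4 : A (0, -1) = -b := by rw [hA]; ext <;> simp
    have h5 : A (1, 1) = a + b := by rw [hA]; ext <;> simp
    have h6 : A (-1, -1) = -(a + b) := by
      rw [hA]
      ext
      · simp only [Prod.fst_neg, Prod.fst_add]
        ring
      · simp only [Prod.snd_neg, Prod.snd_add]
        ring
    unfold Tri
    rcases hsup _ hz with h | h | h | h | h | h | h
    · exact Or.inl (A.injective (h.trans h0.symm))
    · exact Or.inr (Or.inl (A.injective (h.trans h1.symm)))
    · exact Or.inr (Or.inr (Or.inl (A.injective (h.trans h2.symm))))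
    · exact Or.inr (Or.inr (Or.inr (Or.inl (A.injective (h.trans h3.symm)))))
    · exact Or.inr (Or.inr (Or.inr (Or.inr (Or.inl (A.injective (h.trans h4.symm))))))
    · exact Or.inr (Or.inr (Or.inr (Or.inr (Or.inr (Or.inl (A.injective (h.trans h5.symm)))))))
    · exact Or.inr (Or.inr (Or.inr (Or.inr (Or.inr (Or.inr (A.injective (h.trans h6.symm)))))))
  have hJ' : IsCoupling 1 (fun z => J (A z)) := by
    refine ⟨fun z => hJ.nonneg _, fun z => ?_, fun z hz => ?_⟩
    · rw [map_neg, hJ.even]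
    · by_contra hne
      apply hz
      rw [Pool.Agent.H11.RFC.mem_box]
      rcases hTri z hne with h | h | h | h | h | h | h <;> rw [h] <;> simp
  have hIs : IsTri (fun z => J (A z)) := hTri
  refine g_LIN3 R 1 J (fun z => J (A z)) hJ hJ' a b ?_ (fun z => ?_) T ε hT
    (g_ALL3 1 _ hJ' hIs T ε hT hε)
  · unfold fdet
    exact hdet
  · rw [hA]

/-- Exponential decay for all planar couplings at every temperature. -/
theorem g_PLA (R : ℕ) (J : Site → ℝ) (hJ : IsCoupling R J) (hP : Planar J) (T ε : ℝ)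
    (hT : 0 ≤ T) (hε : 0 < ε) : ExpDecay R J T ε := by
  rcases hT.lt_or_eq with h | h
  · exact g_PLT R J hJ hP T ε h hε
  · rw [← h]
    exact f_LIN R J hJ hP ε hε

end Pool.Agent.H98.RFT
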