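import Pool.Agent.H98.RFT.Defs

/-!
# Board `rft_modules`: targets

`h` is the external field, `T > 0` the temperature.  Paper: `/team-store/RFT_PAPER.md`.
-/

set_option autoImplicit false

noncomputable section

open MeasureTheory ProbabilityTheory Filter Topology

namespace Pool.Agent.H98.RFT

open Pool.Agent.H98.RFC Pool.Agent.H98.RFZ

/-! ## Part 0: the double model -/

/-- Basic rules for the expectation. Only open edges with positive coupling matter. -/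
def D_BAS : Prop := ∀ (R : ℕ) (J : Site → ℝ), IsCoupling R J → ∀ (h : Site → ℝ) (T : ℝ), 0 < T →
  ∀ W : Finset Site,
  (∀ c : ℝ, Qe R J h T W (fun _ _ _ => c) = c) ∧
  (∀ F G : Finset Site → Finset Site → Finset (Site × Site) → ℝ,
    Qe R J h T W (fun S S' ω => F S S' ω + G S S' ω) = Qe R J h T W F + Qe R J h T W G) ∧
  (∀ (c : ℝ) (F : Finset Site → Finset Site → Finset (Site × Site) → ℝ),
    Qe R J h T W (fun S S' ω => c * F S S' ω) = c * Qe R J h T W F) ∧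
  (∀ F G : Finset Site → Finset Site → Finset (Site × Site) → ℝ,
    (∀ S S' ω, S ⊆ W → S' ⊆ W → ω ⊆ prs R W → (∀ e ∈ ω, 0 < J (e.1 - e.2)) →
      F S S' ω ≤ G S S' ω) → Qe R J h T W F ≤ Qe R J h T W G) ∧
  (∀ (ι : Type) (I : Finset ι) (F : ι → Finset Site → Finset Site → Finset (Site × Site) → ℝ),
    Qe R J h T W (fun S S' ω => ∑ i ∈ I, F i S S' ω) = ∑ i ∈ I, Qe R J h T W (F i))

/-- Probabilities. -/
def D_QP : Prop := ∀ (R : ℕ) (J : Site → ℝ), IsCoupling R J → ∀ (h : Site → ℝ) (T : ℝ), 0 < T →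
  ∀ W : Finset Site,
  (∀ A : Set Site → Finset (Site × Site) → Prop, 0 ≤ QP R J h T W A ∧ QP R J h T W A ≤ 1 ∧
    QP R J h T W (fun D ω => ¬ A D ω) = 1 - QP R J h T W A) ∧
  (∀ A B : Set Site → Finset (Site × Site) → Prop,
    (∀ D ω, (↑W : Set Site)ᶜ ⊆ D → ω ⊆ prs R W → (∀ e ∈ ω, 0 < J (e.1 - e.2)) →
      A D ω → B D ω) → QP R J h T W A ≤ QP R J h T W B) ∧
  (∀ (ι : Type) (I : Finset ι) (A : ι → Set Site → Finset (Site × Site) → Prop),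
    QP R J h T W (fun D ω => ∃ i ∈ I, A i D ω) ≤ ∑ i ∈ I, QP R J h T W (A i))

/-- Continuity and measurability in the field, positivity of the weights. -/
def D_CNT : Prop := ∀ (R : ℕ) (J : Site → ℝ) (T : ℝ), 0 < T → ∀ W : Finset Site,
  (∀ F : Finset Site → Finset Site → Finset (Site × Site) → ℝ,
    Continuous (fun h : Site → ℝ => Qe R J h T W F)) ∧
  (∀ A : Set Site → Finset (Site × Site) → Prop,
    Continuous (fun h : Site → ℝ => QP R J h T W A)) ∧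
  (∀ x : Site, Continuous (fun h : Site → ℝ => inf1 R J h T W x))

/-- Locality. -/
def D_LOQ : Prop := ∀ (R : ℕ) (J h h' : Site → ℝ) (T : ℝ) (W : Finset Site),
  (∀ z ∈ W, h z = h' z) →
  (∀ F : Finset Site → Finset Site → Finset (Site × Site) → ℝ,
    Qe R J h T W F = Qe R J h' T W F) ∧
  (∀ A : Set Site → Finset (Site × Site) → Prop, QP R J h T W A = QP R J h' T W A) ∧
  (∀ x : Site, inf1 R J h T W x = inf1 R J h' T W x)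

/-- Translations. -/
def D_TRQ : Prop := ∀ (R : ℕ) (J h : Site → ℝ) (T : ℝ) (W : Finset Site) (y : Site),
  (∀ A : Set Site → Finset (Site × Site) → Prop,
    QP R J h T (W.image (fun x => y + x)) A =
      QP R J (fun x => h (y + x)) T W
        (fun D ω => A ((fun x => y + x) '' D) (ω.image (fun e => (y + e.1, y + e.2))))) ∧
  (∀ x : Site, inf1 R J h T (W.image (fun x => y + x)) (y + x) =
    inf1 R J (fun x => h (y + x)) T W x)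

/-- Domination by the double model in a subdomain. -/
def D_DOM : Prop := ∀ (R : ℕ) (J : Site → ℝ), IsCoupling R J → ∀ (h : Site → ℝ) (T : ℝ), 0 < T →
  ∀ (W Λ : Finset Site), W ⊆ Λ → ∀ P : Finset (Site × Site), P ⊆ prs R W →
  ∀ Φ : Set Site → Finset (Site × Site) → ℝ, (∀ D ω, 0 ≤ Φ D ω) →
  (∀ D D' ω, D ⊆ D' → Φ D ω ≤ Φ D' ω) →
  ∀ G : Finset Site → Finset Site → Finset (Site × Site) → ℝ, (∀ S S' ω, 0 ≤ G S S' ω) →
  (∀ S S' ω, G S S' ω = G (S \ W) (S' \ W) (ω \ P)) →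
  Qe R J h T Λ (fun S S' ω => Φ (Dq Λ S S') (ω ∩ P) * G S S' ω) ≤
    Qd R J h T W (fun D ω => Φ D (ω ∩ P)) * Qe R J h T Λ G

/-- Several disjoint subdomains. -/
def D_PRD : Prop := ∀ (R : ℕ) (J : Site → ℝ), IsCoupling R J → ∀ (h : Site → ℝ) (T : ℝ), 0 < T →
  ∀ (Λ : Finset Site) (n : ℕ) (W : Fin n → Finset Site), (∀ i, W i ⊆ Λ) →
  (∀ i j, i ≠ j → Disjoint (W i) (W j)) →
  ∀ A : Fin n → Set Site → Finset (Site × Site) → Prop,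
  (∀ i D D' ω, D ⊆ D' → A i D ω → A i D' ω) →
  (∀ i D ω, A i D ω → A i (D ∩ ↑(W i)) (ω ∩ (W i ×ˢ W i))) →
  (∀ i D ω, A i D (ω ∩ (W i ×ˢ W i)) → A i D ω) →
    QP R J h T Λ (fun D ω => ∀ i, A i D ω) ≤ ∏ i, QP R J h T (W i) (A i)

/-- One subdomain, edges to the outside included. -/
def D_SUB : Prop := ∀ (R : ℕ) (J : Site → ℝ), IsCoupling R J → ∀ (h : Site → ℝ) (T : ℝ), 0 < T →
  ∀ (W Λ : Finset Site), W ⊆ Λ → ∀ A : Set Site → Finset (Site × Site) → Prop,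
  (∀ D D' ω, D ⊆ D' → A D ω → A D' ω) → (∀ D ω, A D ω → A D (ω ∩ prs R W)) →
    QP R J h T Λ A ≤ QP R J h T W A

/-- The influence is a connection probability and is decreasing in the domain. -/
def D_INF : Prop := ∀ (R : ℕ) (J : Site → ℝ), IsCoupling R J → ∀ (h : Site → ℝ) (T : ℝ), 0 < T →
  (∀ (W : Finset Site), ∀ x ∈ W, inf1 R J h T W x = QP R J h T W (fun D ω => conn D W ω x) ∧
    0 ≤ inf1 R J h T W x ∧ inf1 R J h T W x ≤ 1) ∧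
  (∀ (W Λ : Finset Site), W ⊆ Λ → ∀ x ∈ W,
    QP R J h T Λ (fun D ω => conn D W ω x) ≤ inf1 R J h T W x ∧
    inf1 R J h T Λ x ≤ inf1 R J h T W x) ∧
  (∀ (B W V : Finset Site), B ⊆ W → Disjoint V W → ∀ x ∈ B,
    QP R J h T W (Cv V x) ≤ inf1 R J h T B x)

/-- Independence of functions of disjoint parts of the field. -/
def D_APR : Prop := ∀ (n : ℕ) (Y : Fin n → Finset Site) (f : Fin n → (Site → ℝ) → ℝ),
  (∀ i j, i ≠ j → Disjoint (Y i) (Y j)) → (∀ i, Measurable (f i)) → (∀ i η, |f i η| ≤ 1) →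
  (∀ i, ∀ η η' : Site → ℝ, (∀ x ∈ Y i, η x = η' x) → f i η = f i η') →
  ∫ η, ∏ i, f i η ∂gam = ∏ i, ∫ η, f i η ∂gam

/-- Positive association. -/
def D_FKG : Prop := ∀ (R : ℕ) (J : Site → ℝ), IsCoupling R J → ∀ (h : Site → ℝ) (T : ℝ), 0 < T →
  ∀ (W : Finset Site) (B B' : Set Site), Disjoint B (↑W : Set Site) →
  Disjoint B' (↑W : Set Site) →
  ∀ F G : Finset Site → Finset Site → Finset (Site × Site) → ℝ,
  (∀ S₁ S₂ S₁' S₂' ω₁ ω₂, S₁ ⊆ S₂ → S₂ ⊆ W → S₂' ⊆ S₁' → S₁' ⊆ W → ω₁ ⊆ ω₂ → ω₂ ⊆ prs R W →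
    F S₁ S₁' ω₁ ≤ F S₂ S₂' ω₂ ∧ G S₁ S₁' ω₁ ≤ G S₂ S₂' ω₂) →
  Qg R J h T W B B' F * Qg R J h T W B B' G ≤
    Qg R J h T W B B' (fun S S' ω => F S S' ω * G S S' ω)

/-! ## Part 0: the tension -/

/-- Zero field Edwards–Sokal identity with a minus set `V`. -/
def D_ESV : Prop := ∀ (U W V : Finset Site) (P : Finset (Site × Site)) (κ : Site × Site → ℝ),
  U ⊆ W → Disjoint V W →
  (∀ e ∈ P, (e.1 ∈ U ∨ e.1 ∉ W) ∧ (e.2 ∈ U ∨ e.2 ∉ W)) →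
  ∑ s ∈ U.powerset, ∏ e ∈ P, Real.exp (κ e * sg (↑s ∪ (↑(W ∪ V))ᶜ) e.1 *
      sg (↑s ∪ (↑(W ∪ V))ᶜ) e.2) =
    ∑ s ∈ U.powerset, (∑ ω ∈ P.powerset, bw P (fun e => Real.exp (-(2 * κ e))) ω *
        ind (¬ Cn V (W ∪ V) (↑s ∪ (↑W)ᶜ) ω)) *
      ∏ e ∈ P, Real.exp (κ e * sg (↑s ∪ (↑W)ᶜ) e.1 * sg (↑s ∪ (↑W)ᶜ) e.2)

/-- The ratio of partition functions is the probability that `V` is not joined to the outside. -/
def D_TQ : Prop := ∀ (R : ℕ) (J : Site → ℝ), IsCoupling R J → ∀ (h : Site → ℝ) (T : ℝ), 0 < T →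
  ∀ (V Λ : Finset Site), hull R V ⊆ Λ → V ⊆ Λ →
  Zm R J h T Λ V (↑Λ)ᶜ * Zm R J h T Λ V ↑V =
    Zm R J h T Λ V ((↑Λ)ᶜ ∪ ↑V) * Zm R J h T Λ V ∅ *
      QP R J h T (Λ \ V) (fun D ω => ¬ Cn V Λ D ω)

/-- Properties of the tension. -/
def D_TEN : Prop := ∀ (R : ℕ) (J : Site → ℝ), IsCoupling R J → ∀ (T : ℝ), 0 < T →
  ∀ (V Λ : Finset Site), V ⊆ Λ →
  (∀ h : Site → ℝ, 0 < QP R J h T (Λ \ V) (fun D ω => ¬ Cn V Λ D ω)) ∧
  (∀ h : Site → ℝ, 0 ≤ tenT R J h T V Λ) ∧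
  (∀ h h' : Site → ℝ, (∀ x ∈ Λ \ V, h x = h' x) → tenT R J h T V Λ = tenT R J h' T V Λ) ∧
  Measurable (fun h : Site → ℝ => tenT R J h T V Λ)

/-- Aizenman–Peled inequality at positive temperature. -/
def D_AP : Prop := ∀ (R : ℕ) (J : Site → ℝ), IsCoupling R J → ∀ (h : Site → ℝ) (T : ℝ), 0 < T →
  ∀ (V Λ : Finset Site), hull R V ⊆ Λ → V ⊆ Λ → ∀ t₁ t₂ : ℝ, t₁ ≤ t₂ →
  2 * ∫ t in Set.Icc t₁ t₂, ∑ x ∈ V, inf1 R J (shf V t h) T Λ x ≤ tenT R J h T V Λ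

/-- Exploration: edges that are not needed to find `f` are still independent. -/
def D_EXP : Prop := ∀ (ι : Type) [DecidableEq ι] (P : Finset (Site × Site))
  (q : Site × Site → ℝ) (f : Finset (Site × Site) → ι) (E : ι → Finset (Site × Site)),
  (∀ i, E i ⊆ P) → (∀ ω ω', ω ⊆ P → ω' ⊆ P → ω \ E (f ω) = ω' \ E (f ω) → f ω' = f ω) →
  ∀ g : ι → ℝ,
  ∑ ω ∈ P.powerset, bw P q ω * (g (f ω) * ind (ω ∩ E (f ω) = ∅)) =
    ∑ ω ∈ P.powerset, bw P q ω * (g (f ω) * ∏ e ∈ E (f ω), q e)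

open Classical in
/-- Adaptive cut at the level `ℓ`, fixed disagreement set. -/
def D_ADC : Prop := ∀ (R : ℕ) (J : Site → ℝ), IsCoupling R J → ∀ (T : ℝ), 0 < T →
  ∀ (V Λ M : Finset Site), V ⊆ Λ → M ⊆ Λ \ V → ∀ D : Set Site, ↑V ⊆ D → ∀ n ℓ : ℕ, ℓ < n →
  ∑ ω ∈ (prs R (Λ \ V)).powerset, bw (prs R (Λ \ V)) (qe J T) ω * (ind (¬ Th V Λ M n D ω) *
      Real.exp (-(4 * Jt R J / T) * ((M.filter (fun a => Lv V M ℓ a D ω ∧
        ∀ ℓ', ℓ' < ℓ → ¬ Lv V M ℓ' a D ω)).card : ℝ))) ≤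
    ∑ ω ∈ (prs R (Λ \ V)).powerset, bw (prs R (Λ \ V)) (qe J T) ω * ind (¬ Cn V Λ D ω)

/-- Adaptive cut: upper bound for the tension. -/
def D_CUA : Prop := ∀ (R : ℕ) (J : Site → ℝ), IsCoupling R J → ∀ (h : Site → ℝ) (T : ℝ), 0 < T →
  ∀ (V Λ M : Finset Site), V ⊆ Λ → M ⊆ Λ \ V → ∀ n : ℕ, 1 ≤ n →
  tenT R J h T V Λ ≤ 8 * Jt R J / n * ∑ x ∈ M, QP R J h T (Λ \ V) (Cv V x) +
    (8 * Jt R J * (V.card : ℝ) + 2 * T) * QP R J h T (Λ \ V) (Th V Λ M n)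

/-- Deterministic cut: upper bound for the tension. -/
def D_CUT : Prop := ∀ (R : ℕ) (J : Site → ℝ), IsCoupling R J → ∀ (h : Site → ℝ) (T : ℝ), 0 < T →
  ∀ (V U Λ : Finset Site), V ⊆ U → U ⊆ Λ →
  tenT R J h T V Λ ≤ 4 * ∑ a ∈ U, ∑ b ∈ hull R U \ U,
    J (a - b) * QP R J h T (Λ \ V) (Cv V a)

/-- Change of an expectation under a shift of the field. -/
def D_GPF : Prop := ∀ (V : Finset Site) (s : ℝ) (f : (Site → ℝ) → ℝ), Measurable f →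
  (∀ η, 0 ≤ f η ∧ f η ≤ 1) →
  ∫ η, f (shf V s η) ∂gam ≤
    Real.exp (s ^ 2 * (V.card : ℝ) / 2) * Real.sqrt (∫ η, f η ∂gam)

/-! ## Part 1: relative decay in elongated rectangles -/

/-- `mKT` is decreasing and bounds `mag`. -/
def P_MONT : Prop := ∀ (R : ℕ) (J : Site → ℝ), IsCoupling R J → ∀ T ε : ℝ, 0 < T →
  ∀ (p : Site) (K w : ℝ), p ≠ 0 → 1 ≤ K → 0 ≤ w →
  0 ≤ mKT R J T ε p K w ∧ mKT R J T ε p K w ≤ 1 ∧
  (∀ w' : ℝ, w ≤ w' → mKT R J T ε p K w' ≤ mKT R J T ε p K w) ∧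
  (∀ L : ℕ, (1 + K) * w ≤ L → mag R J T ε L ≤ mKT R J T ε p K w)

/-- Points of the inner rectangle. -/
def P_LBT : Prop := ∀ (R : ℕ) (J : Site → ℝ), IsCoupling R J → ∀ T ε : ℝ, 0 < T →
  ∀ (p : Site) (K w : ℝ), p ≠ 0 → 1 ≤ K → 0 ≤ w →
  ((rect p K w).card : ℝ) * mKT R J T ε p K (5 * w) ≤
    ∫ η, ∑ x ∈ rect p K w, inf1 R J (fun z => ε * η z) T (rect p K (4 * w)) x ∂gam

/-- Lower bound for the tension. -/
def P_TLBT : Prop := ∀ (R : ℕ) (J : Site → ℝ), IsCoupling R J → ∀ T ε : ℝ, 0 < T → 0 < ε →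
  ∀ (p : Site) (K w : ℝ), p ≠ 0 → 1 ≤ K → (20 * R + 20 : ℝ) ≤ w →
  2 * ε * Real.sqrt K * w * mKT R J T ε p K (5 * w) ≤
    ∫ η, tenT R J (fun x => ε * η x) T (rect p K w) (rect p K (4 * w)) ∂gam

open Classical in
/-- Upper bound for the tension. -/
def P_CUTT : Prop := ∀ (R : ℕ) (J : Site → ℝ), IsCoupling R J → ∀ (h : Site → ℝ) (T : ℝ), 0 < T →
  ∀ (p : Site) (K w : ℝ), p ≠ 0 → 1 ≤ K → (20 * R + 20 : ℝ) ≤ w →
  tenT R J h T (rect p K w) (rect p K (4 * w)) ≤ 64 * R * Jt R J / (K * w) *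
    ∑ x ∈ (rect p K (4 * w) \ rect p K w).filter (fun x =>
      |(fdet p x : ℝ)| ≤ 3 * w * nrm p ∧ |(gdot p x : ℝ)| ≤ 3 * K * w * nrm p ∧
      (2 * w * nrm p < |(fdet p x : ℝ)| ∨ 2 * K * w * nrm p < |(gdot p x : ℝ)|)),
      QP R J h T (rect p K (4 * w) \ rect p K w) (Cv (rect p K w) x) +
    (8 * Jt R J * ((rect p K w).card : ℝ) + 2 * T) *
      QP R J h T (rect p K (4 * w) \ rect p K w) (SPT p K w)

/-- The middle of the annulus. -/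
def P_ANNT : Prop := ∀ (R : ℕ) (J : Site → ℝ), IsCoupling R J → ∀ T ε : ℝ, 0 < T →
  ∀ (p : Site) (K w : ℝ), p ≠ 0 → 1 ≤ K → 0 < w → ∀ x : Site,
  |(fdet p x : ℝ)| ≤ 3 * w * nrm p → |(gdot p x : ℝ)| ≤ 3 * K * w * nrm p →
  (2 * w * nrm p < |(fdet p x : ℝ)| ∨ 2 * K * w * nrm p < |(gdot p x : ℝ)|) →
  PA R J T ε (rect p K (4 * w) \ rect p K w) (Cv (rect p K w) x) ≤ mKT R J T ε p K (w / 2)

/-- The relative decay inequality. -/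
def P_MAINT : Prop := ∀ (R : ℕ) (J : Site → ℝ), IsCoupling R J → ∀ T ε : ℝ, 0 < T → 0 < ε →
  ∀ (p : Site) (K w : ℝ), p ≠ 0 → 1 ≤ K → (20 * R + 20 : ℝ) ≤ w →
  2 * ε * Real.sqrt K * mKT R J T ε p K (5 * w) ≤
    20000 * R * Jt R J * mKT R J T ε p K (w / 2) +
    (128 * Jt R J * K + 2 * T) * w * pSP R J T ε p K w

/-- Short paths are unlikely implies exponential decay. -/
def P_ENDT : Prop := ∀ (R : ℕ) (J : Site → ℝ), IsCoupling R J → ∀ T ε : ℝ, 0 < T → 0 < ε →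
  ∃ K₀ : ℝ, 1 ≤ K₀ ∧ ∀ (p : Site) (K w₀ : ℝ), p ≠ 0 → K₀ ≤ K →
    (∀ w : ℝ, w₀ ≤ w → pSP R J T ε p K w ≤ (w ^ 5)⁻¹) → ExpDecay R J T ε

end Pool.Agent.H98.RFT
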