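import Pool.Agent.H98.RFT.Targets

/-!
# Board `rft_modules`, part 2 (tubes, tortuosity): targets

Paper: `/team-store/RFT_PAPER.md`.
-/

set_option autoImplicit false

noncomputable section

open MeasureTheory ProbabilityTheory Filter Topology

namespace Pool.Agent.H98.RFT

open Pool.Agent.H98.RFC Pool.Agent.H98.RFZ

/-- Bad cells: locality, monotonicity, translation invariance of the probability. -/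
def T_BM : Prop := ∀ (R : ℕ) (J : Site → ℝ), IsCoupling R J → ∀ (T ε : ℝ), 0 < T →
  ∀ (N : Site → ℝ) (v : ℕ) (z : Site),
  (∀ D D' ω, D ⊆ D' → BadT N v z D ω → BadT N v z D' ω) ∧
  (∀ D ω, BadT N v z D ω →
    BadT N v z (D ∩ ↑(eb z (10 * v))) (ω ∩ (eb z (10 * v) ×ˢ eb z (10 * v)))) ∧
  (∀ D ω, BadT N v z D (ω ∩ (eb z (10 * v) ×ˢ eb z (10 * v))) → BadT N v z D ω) ∧
  PA R J T ε (eb z (10 * v)) (BadT N v z) = pBT R J T ε N v ∧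
  0 ≤ pBT R J T ε N v ∧ pBT R J T ε N v ≤ 1

/-- The same for tube crossings. -/
def T_CM : Prop := ∀ (R : ℕ) (J : Site → ℝ), IsCoupling R J → ∀ (T ε : ℝ), 0 < T →
  ∀ (u : ℕ) (v : Site) (K' : ℕ) (y : Site),
  (∀ D D' ω, D ⊆ D' → CrsT u v y D ω → CrsT u v y D' ω) ∧
  (2 ≤ K' → ∀ D ω, CrsT u v y D ω →
    CrsT u v y (D ∩ ↑(tube y (y + sm u v) (K' * u)))
      (ω ∩ (tube y (y + sm u v) (K' * u) ×ˢ tube y (y + sm u v) (K' * u)))) ∧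
  (∀ D ω, CrsT u v y D
      (ω ∩ (tube y (y + sm u v) (K' * u) ×ˢ tube y (y + sm u v) (K' * u))) →
    CrsT u v y D ω) ∧
  PA R J T ε (tube y (y + sm u v) (K' * u)) (CrsT u v y) = pCT R J T ε u v K' ∧
  0 ≤ pCT R J T ε u v K' ∧ pCT R J T ε u v K' ≤ 1

/-- No bad cells for the trivial norm. -/
def T_BASE : Prop := ∀ R : ℕ, 1 ≤ R → ∀ (D : Set Site) (ω : Finset (Site × Site)),
  (∀ e ∈ ω, e.2 - e.1 ∈ box R) → ∀ p : Site, p ≠ 0 → ∀ (v : ℕ) (z : Site),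
    ¬ BadT (Nq p (1 / (2 * (R : ℝ) ^ 2)) (1 / (2 * (R : ℝ) ^ 2))) v z D ω

/-- Scaling up, deterministic part. -/
def T_A1 : Prop := ∀ (R : ℕ) (D : Set Site) (ω : Finset (Site × Site)),
  (∀ e ∈ ω, e.2 - e.1 ∈ box R) → ∀ (N : Site → ℝ)
  (α β c : ℝ), 0 < α → α ≤ β → IsN N α β → ∀ v w : ℕ, 20 * R + 20 ≤ v → 100 * v ≤ w →
  0 ≤ c → c ≤ 1 - 100 * (β / α) * ((v : ℝ) / (w : ℝ)) →
  BadT (fun x => c * N x) w 0 D ω →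
  ∃ y₁ y₂ : Site, sm v y₁ ∈ eb 0 (9 * w) ∧ sm v y₂ ∈ eb 0 (9 * w) ∧
    (20 * (v : ℤ)) ^ 2 < nsq (sm v y₁ - sm v y₂) ∧
    BadT N v (sm v y₁) D ω ∧ BadT N v (sm v y₂) D ω

/-- Scaling up, probability. -/
def T_A2 : Prop := ∀ (R : ℕ) (J : Site → ℝ), IsCoupling R J → ∀ (T ε : ℝ), 0 < T →
  ∀ (N : Site → ℝ) (α β c : ℝ), 0 < α → α ≤ β → IsN N α β →
  ∀ v w : ℕ, 20 * R + 20 ≤ v → 100 * v ≤ w →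
  0 ≤ c → c ≤ 1 - 100 * (β / α) * ((v : ℝ) / (w : ℝ)) →
  pBT R J T ε (fun x => c * N x) w ≤ (20 * (w : ℝ) / (v : ℝ)) ^ 4 * (pBT R J T ε N v) ^ 2

/-- Scaling up, summary. -/
def T_A : Prop := ∀ (R : ℕ) (J : Site → ℝ), IsCoupling R J → ∀ (T ε : ℝ), 0 < T →
  ∀ (N : Site → ℝ) (α β θ : ℝ), 0 < α → α ≤ β → IsN N α β → 0 < θ → θ < 1 →
  ∀ v : ℕ, 20 * R + 20 ≤ v → pBT R J T ε N v ≤ (θ / (10 ^ 5 * (β / α))) ^ 4 →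
  ∃ w₀ : ℕ, ∀ w : ℕ, w₀ ≤ w → pBT R J T ε (fun x => (1 - θ) * N x) w ≤ ((w : ℝ) ^ 20)⁻¹

/-- A bad cell for a slightly larger norm without bad cells at a smaller scale comes from a path
that is almost straight and not almost parallel to `p`. -/
def T_B1 : Prop := ∀ (R : ℕ) (D : Set Site) (ω : Finset (Site × Site)),
  (∀ e ∈ ω, e.2 - e.1 ∈ box R) → ∀ (p : Site)
  (a b a' b' α β θ κ φ : ℝ) (A A' u v : ℕ), p ≠ 0 → 0 < α → α ≤ β →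
  α ^ 2 ≤ a → a ≤ β ^ 2 → α ^ 2 ≤ b → b ≤ β ^ 2 → 0 ≤ a' → 0 ≤ b' → 0 < θ → θ < 1 → 0 < κ →
  κ < 1 → 0 < φ →
  (∀ x : Site, |(fdet p x : ℝ)| < φ * |(gdot p x : ℝ)| → Nq p a' b' x ≤ (1 - θ) * Nq p a b x) →
  (∀ x : Site, Nq p a' b' x ≤ (1 + κ) * Nq p a b x) →
  8 ≤ A → 8 ≤ A' → β / α ≤ A * A' * θ → β / α ≤ A * A' * κ → κ ≤ (α / (200 * A' * β)) ^ 2 →
  A * v ≤ u → 20 * R + 20 ≤ v →
  (∀ y : Site, sm v y ∈ eb 0 (9 * (A' * u)) → ¬ BadT (Nq p a b) v (sm v y) D ω) →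
  ∀ (k : ℕ) (x : ℕ → Site), OPath D ω k x →
    (∀ i, i ≤ k → x i ∈ eb 0 (8 * (A' * u))) → x 0 ∈ eb 0 (2 * (A' * u)) →
    ((A' * u : ℕ) : ℤ) ^ 2 ≤ nsq (x k - x 0) → (k : ℝ) < Nq p a' b' (x k - x 0) →
    φ * |(gdot p (x k - x 0) : ℝ)| ≤ |(fdet p (x k - x 0) : ℝ)| ∧
    ∀ i, i ≤ k → nearSeg (x 0) (x k) (x i) ((u : ℝ) / 2)

/-- An almost straight path crosses many tubes that depend only on the cells of its endpoints. -/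
def T_B2 : Prop := ∀ (R : ℕ) (φ : ℝ) (p : Site)
  (M K' n A' u : ℕ), 0 < φ → φ ≤ 1 → p ≠ 0 → 100 / φ ≤ (M : ℝ) → 10 ≤ M → 2 ≤ K' →
  n * (M + 2 * K' + 10) + K' + 100 ≤ A' → 200 * R + 200 ≤ u →
  ∀ P₀ P₁ : Site, P₀ ∈ box (9 * A') → P₁ ∈ box (9 * A') →
    ((A' : ℤ) - 2) ^ 2 ≤ nsq (P₁ - P₀) →
  ∃ y v : Fin n → Site, (∀ m, InVM M (v m)) ∧
    (∀ m m', m ≠ m' → Disjoint (tube (y m) (y m + sm u (v m)) (K' * u))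
      (tube (y m') (y m' + sm u (v m')) (K' * u))) ∧
    ∀ (D : Set Site) (ω : Finset (Site × Site)), (∀ e ∈ ω, e.2 - e.1 ∈ box R) →
      ∀ (k : ℕ) (x : ℕ → Site), OPath D ω k x →
      (∀ i, i ≤ k → x i ∈ eb 0 (8 * (A' * u))) →
      ((A' * u : ℕ) : ℤ) ^ 2 ≤ nsq (x k - x 0) →
      2 * nsq (x 0 - sm u P₀) ≤ (u : ℤ) ^ 2 → 2 * nsq (x k - sm u P₁) ≤ (u : ℤ) ^ 2 →
      (∀ i, i ≤ k → nearSeg (x 0) (x k) (x i) ((u : ℝ) / 2)) →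
      2 * φ * |(gdot p (x k - x 0) : ℝ)| ≤ |(fdet p (x k - x 0) : ℝ)| →
      (∀ m, φ * |(gdot p (v m) : ℝ)| ≤ |(fdet p (v m) : ℝ)|) ∧
      (∀ m, tube (y m) (y m + sm u (v m)) (K' * u) ⊆ eb 0 (10 * (A' * u))) ∧
      ∀ m, CrsT u (v m) (y m) D ω

/-- Gain at a hard scale, probability. -/
def T_B3 : Prop := ∀ (R : ℕ) (J : Site → ℝ), IsCoupling R J → ∀ (T ε : ℝ), 0 < T → ∀ (p : Site)
  (a b a' b' α β θ κ φ δ : ℝ) (A A' M K' n u v : ℕ), p ≠ 0 → 0 < α → α ≤ β →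
  α ^ 2 ≤ a → a ≤ β ^ 2 → α ^ 2 ≤ b → b ≤ β ^ 2 → 0 ≤ a' → 0 ≤ b' → 0 < θ → θ < 1 → 0 < κ →
  κ < 1 → 0 < φ → φ ≤ 1 → 0 < δ → δ < 1 →
  (∀ x : Site, |(fdet p x : ℝ)| < 2 * φ * |(gdot p x : ℝ)| →
    Nq p a' b' x ≤ (1 - θ) * Nq p a b x) →
  (∀ x : Site, Nq p a' b' x ≤ (1 + κ) * Nq p a b x) →
  8 ≤ A → β / α ≤ A * A' * θ → β / α ≤ A * A' * κ → κ ≤ (α / (200 * A' * β)) ^ 2 →
  100 / φ ≤ (M : ℝ) → 10 ≤ M → 2 ≤ K' → n * (M + 2 * K' + 10) + K' + 100 ≤ A' →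
  A * v ≤ u → u ≤ 2 * A * v → 200 * R + 200 ≤ v → HardT R J T ε p φ M K' δ u →
  pBT R J T ε (Nq p a' b') (A' * u) ≤
    (40 * (A : ℝ) * A') ^ 2 * pBT R J T ε (Nq p a b) v + (20 * (A' : ℝ)) ^ 4 * (1 - δ) ^ n

/-- One step of the induction over hard scales. -/
def T_STEP : Prop := ∀ (R : ℕ) (J : Site → ℝ), IsCoupling R J → ∀ (T ε : ℝ), 0 < T → ∀ (p : Site)
  (α β G φ δ : ℝ) (M K' : ℕ), p ≠ 0 → 0 < α → α ≤ β → 1 ≤ G → 0 < φ → φ ≤ 1 → 0 < δ → δ < 1 →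
  (2 * φ) ^ 2 * β ^ 2 * (G + 1) ≤ α ^ 2 / 2 → 100 / φ ≤ (M : ℝ) → 10 ≤ M → 2 ≤ K' →
  ∃ κ : ℝ, 0 < κ ∧ κ < 1 / 2 ∧
    ∀ a b : ℝ, α ^ 2 ≤ a → a ≤ β ^ 2 → α ^ 2 ≤ b → b ≤ β ^ 2 →
    (∃ w₀ : ℕ, ∀ w : ℕ, w₀ ≤ w → pBT R J T ε (Nq p a b) w ≤ ((w : ℝ) ^ 20)⁻¹) →
    (∀ u₀ : ℕ, ∃ u : ℕ, u₀ ≤ u ∧ HardT R J T ε p φ M K' δ u) →
    ∃ w₀ : ℕ, ∀ w : ℕ, w₀ ≤ w →
      pBT R J T ε (Nq p (a * (1 - 2 * (κ / G))) (b * (1 + κ / 2))) w ≤ ((w : ℝ) ^ 20)⁻¹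

/-- Infinitely many hard scales make all paths transversal to `p` long. -/
def T_IND : Prop := ∀ (R : ℕ) (J : Site → ℝ), IsCoupling R J → 1 ≤ R → ∀ (T ε l : ℝ), 0 < T →
  1 ≤ l → ∃ φ : ℝ, 0 < φ ∧ φ ≤ 1 ∧ ∀ (p : Site) (M K' : ℕ) (δ : ℝ), p ≠ 0 → 100 / φ ≤ (M : ℝ) →
    10 ≤ M → 2 ≤ K' → 0 < δ → δ < 1 →
    (∀ u₀ : ℕ, ∃ u : ℕ, u₀ ≤ u ∧ HardT R J T ε p φ M K' δ u) →
    ∃ w₀ : ℕ, ∀ w : ℕ, w₀ ≤ w →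
      pBT R J T ε (fun x => l * |(fdet p x : ℝ)| / nrm p) w ≤ ((w : ℝ) ^ 20)⁻¹

/-- Long transversal paths exclude short paths in the annulus. -/
def T_SP : Prop := ∀ (R : ℕ) (J : Site → ℝ), IsCoupling R J → ∀ (T ε : ℝ), 0 < T →
  ∀ (p : Site) (K l : ℝ), p ≠ 0 → 1 ≤ K → 2 * K ≤ l →
  (∃ w₀ : ℕ, ∀ w : ℕ, w₀ ≤ w →
    pBT R J T ε (fun x => l * |(fdet p x : ℝ)| / nrm p) w ≤ ((w : ℝ) ^ 20)⁻¹) →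
  ∃ w₀ : ℝ, ∀ w : ℝ, w₀ ≤ w → pSP R J T ε p K w ≤ (w ^ 5)⁻¹

/-- Structure theorem: without exponential decay there are, at every large scale, two directions
with an angle bounded below in which all tubes are crossed with high probability. -/
def T_STR : Prop := ∀ (R : ℕ) (J : Site → ℝ), IsCoupling R J → ∀ T ε : ℝ, 0 < T → 0 < ε →
  ¬ ExpDecay R J T ε → ∃ φ : ℝ, 0 < φ ∧ φ ≤ 1 ∧ ∀ (M K' : ℕ) (δ : ℝ), 100 / φ ≤ (M : ℝ) →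
    10 ≤ M → 2 ≤ K' → 0 < δ → δ < 1 → ∃ u₀ : ℕ, ∀ u : ℕ, u₀ ≤ u → ∃ v₁ v₂ : Site,
      InVM M v₁ ∧ InVM M v₂ ∧ φ * |(gdot v₁ v₂ : ℝ)| ≤ |(fdet v₁ v₂ : ℝ)| ∧
      1 - δ < pCT R J T ε u v₁ K' ∧ 1 - δ < pCT R J T ε u v₂ K'

end Pool.Agent.H98.RFT
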