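import Pool.Agent.H98.RFT.Targets3

/-!
# Board `rft_modules`, additional target (all finite range couplings, positive temperature)
-/

set_option autoImplicit false

noncomputable section

open MeasureTheory ProbabilityTheory Filter Topology

namespace Pool.Agent.H98.RFT

open Pool.Agent.H98.RFC Pool.Agent.H98.RFZ

/-- A long tube that is crossed in the double model of the enlarged tube gives many sites of
`box (2κu)` joined to the outside of `box (8κu)`. -/
def V_ONE : Prop := ∀ (R : ℕ) (J : Site → ℝ), IsCoupling R J → ∀ (T ε : ℝ), 0 < T →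
  ∀ (κ M K' u : ℕ) (v : Site), 4 ≤ κ → 10 * R + 10 ≤ u → 40 * κ + 100 ≤ M →
  M + 40 * κ + 100 ≤ K' →
  InVM M v → 1 / 2 ≤ pCT R J T ε u v K' →
  (κ * u : ℝ) ≤ 4 * R * ∑ x ∈ (box (2 * (κ * u))).filter
      (fun x => |(fdet v x : ℝ)| ≤ 3 * u * nrm v),
    ∫ η, inf1 R J (fun z => ε * η z) T (box (8 * (κ * u))) x ∂gam

/-- Without exponential decay `L m(L)` tends to infinity, positive temperature. -/
def V_INV : Prop := ∀ (R : ℕ) (J : Site → ℝ), IsCoupling R J → ∀ T ε : ℝ, 0 < T → 0 < ε →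
  ¬ ExpDecay R J T ε → ∀ B : ℝ, ∃ L₀ : ℕ, ∀ L : ℕ, L₀ ≤ L → B ≤ L * mag R J T ε L

end Pool.Agent.H98.RFT
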